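import Pool.Agent.H60.LQ.Stmts
import Pool.Agent.H32.Dense.Times

/-!
# LQ, row NRG: energies after conditioning on a variable with few values
-/

set_option autoImplicit false

namespace Pool.LQ

open Finset Real
open Pool.Agent.H49.Ent Pool.Agent.H32.Dense Pool.Agent.H24.KTH

/-- The mean of `law b / law (b, w)` is at most the number of values of `w`. -/
lemma nrg_sum {Ω : Type} [Fintype Ω] {β : Type} (p : Ω → ℝ) (b : Ω → β) (w : Ω → ℕ) (N : ℕ)
    (hp : ∀ ω, 0 ≤ p ω) (h1 : ∑ ω, p ω = 1) (hw : ∀ ω, w ω ≤ N) :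
    ∑ ω, p ω * (law p b (b ω) / law p (fun ω => (b ω, w ω)) (b ω, w ω)) ≤ N + 1 := by
  classical
  have e1 : ∑ ω, p ω * (law p b (b ω) / law p (fun ω => (b ω, w ω)) (b ω, w ω)) =
      ∑ s ∈ univ.image (fun ω => (b ω, w ω)), law p (fun ω => (b ω, w ω)) s *
        (law p b s.1 / law p (fun ω => (b ω, w ω)) s) :=
    sum_mul_eq_sum_image p (fun ω => (b ω, w ω))
      (fun s => law p b s.1 / law p (fun ω => (b ω, w ω)) s)
  rw [e1]
  calc ∑ s ∈ univ.image (fun ω => (b ω, w ω)), law p (fun ω => (b ω, w ω)) s *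
        (law p b s.1 / law p (fun ω => (b ω, w ω)) s)
      ≤ ∑ s ∈ univ.image (fun ω => (b ω, w ω)), law p b s.1 := by
        refine Finset.sum_le_sum (fun s _ => ?_)
        rcases eq_or_ne (law p (fun ω => (b ω, w ω)) s) 0 with h | h
        · rw [h, zero_mul]
          exact law_nonneg hp _ _
        · rw [mul_div_cancel₀ _ h]
    _ ≤ ∑ s ∈ (univ.image b) ×ˢ (Finset.range (N + 1)), law p b s.1 := by
        refine Finset.sum_le_sum_of_subset_of_nonneg ?_ (fun s _ _ => law_nonneg hp _ _)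
        intro s hs
        obtain ⟨ω, _, rfl⟩ := Finset.mem_image.1 hs
        exact Finset.mem_product.2 ⟨Finset.mem_image_of_mem _ (Finset.mem_univ _),
          Finset.mem_range.2 (Nat.lt_succ_of_le (hw ω))⟩
    _ = ∑ x ∈ univ.image b, (N + 1 : ℝ) * law p b x := by
        rw [Finset.sum_product]
        refine Finset.sum_congr rfl (fun x _ => ?_)
        have : ∀ y ∈ Finset.range (N + 1), law p b ((x, y) : β × ℕ).1 = law p b x := fun y _ => rfl
        rw [Finset.sum_congr rfl this, Finset.sum_const, Finset.card_range, nsmul_eq_mul]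
        push_cast
        ring
    _ = N + 1 := by
        rw [← Finset.mul_sum, sum_law, h1, mul_one]

/-- (NRG). -/
theorem nrg_thm : NRGStmt := by
  classical
  intro d J N Ω _ ζ p Z v u τ w G₀ h hw hG
  have hp := h.hp
  have h1 := h.h1
  obtain ⟨ω₀, hω₀⟩ : ∃ ω, 0 < p ω := by
    by_contra hcon
    push Not at hcon
    have : ∑ ω, p ω ≤ 0 := Finset.sum_nonpos (fun ω _ => hcon ω)
    rw [h1] at this
    linarith
  have hell : ∀ ω ω', 0 < p ω → 0 < p ω' → 0 ≤ ell (2 ^ J) (τ ω) (τ ω') := fun ω ω' a a' =>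
    ell_nonneg h.hM (h.hτ ω a) (h.hτ ω' a')
  have hterm : ∀ ω ω', 0 < p ω → 0 ≤ p ω' * ell (2 ^ J) (τ ω) (τ ω') := by
    intro ω ω' a
    rcases eq_or_lt_of_le (hp ω') with e | e
    · rw [← e, zero_mul]
    · exact mul_nonneg e.le (hell ω ω' a e)
  have hG0 : 0 ≤ G₀ := by
    have := hG ω₀ hω₀
    have hl := law_pos hp (bv Z v) hω₀
    by_contra hneg
    push Not at hneg
    have h2 : G₀ * law p (bv Z v) (bv Z v ω₀) < 0 := mul_neg_of_neg_of_pos hneg hl
    have h3 : (0 : ℝ) ≤ ∑ ω', (if bv Z v ω' = bv Z v ω₀ then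
        p ω' * ell (2 ^ J) (τ ω₀) (τ ω') else 0) := by
      refine Finset.sum_nonneg (fun ω' _ => ?_)
      split_ifs
      · exact hterm ω₀ ω' hω₀
      · exact le_rfl
    have h4 : (∑ ω', (if bv Z v ω' = bv Z v ω₀ then
        p ω' * ell (2 ^ J) (τ ω₀) (τ ω') else 0)) ≤ G₀ * law p (bv Z v) (bv Z v ω₀) := by
      convert this
    linarith
  set b' := bv (fun ω => (cap J (lev J N (w ω)) (v ω), w ω, Z ω)) v with hb'
  have hb : ∀ ω ω', b' ω = b' ω' ↔ (bv Z v ω = bv Z v ω' ∧ w ω = w ω') := by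
    intro ω ω'
    simp only [hb', bv, Prod.mk.injEq]
    constructor
    · rintro ⟨a1, a2, a3, a4⟩
      exact ⟨⟨a1, a4⟩, a3⟩
    · rintro ⟨⟨a1, a4⟩, a3⟩
      exact ⟨a1, by rw [a1, a3], a3, a4⟩
  have hcl : ∀ ω, law p b' (b' ω) =
      law p (fun ω => (bv Z v ω, w ω)) (bv Z v ω, w ω) := by
    intro ω
    unfold law
    refine Finset.sum_congr rfl (fun ω' _ => ?_)
    by_cases hh : bv Z v ω' = bv Z v ω ∧ w ω' = w ω
    · rw [if_pos ((hb ω' ω).2 hh), if_pos (Prod.ext hh.1 hh.2)]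
    · rw [if_neg (fun e => hh ((hb ω' ω).1 e)), if_neg (fun e => hh (Prod.mk.inj e))]
  have key : ∀ ω, ∑ ω', dbl p b' (ω, ω') * ell (2 ^ J) (τ ω) (τ ω') ≤
      G₀ * (p ω * (law p (bv Z v) (bv Z v ω) /
        law p (fun ω => (bv Z v ω, w ω)) (bv Z v ω, w ω))) := by
    intro ω
    rcases eq_or_lt_of_le (hp ω) with e | e
    · have : ∑ ω', dbl p b' (ω, ω') * ell (2 ^ J) (τ ω) (τ ω') = 0 := by
        refine Finset.sum_eq_zero (fun ω' _ => ?_)
        have : dbl p b' (ω, ω') = 0 := by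
          unfold dbl glue
          split_ifs
          · simp [← e]
          · rfl
        rw [this, zero_mul]
      rw [this, ← e]
      simp
    · have hL : 0 < law p b' (b' ω) := law_pos hp b' e
      calc ∑ ω', dbl p b' (ω, ω') * ell (2 ^ J) (τ ω) (τ ω')
          ≤ ∑ ω', p ω / law p b' (b' ω) * (if bv Z v ω' = bv Z v ω then
              p ω' * ell (2 ^ J) (τ ω) (τ ω') else 0) := by
            refine Finset.sum_le_sum (fun ω' _ => ?_)
            unfold dbl glue
            dsimp only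
            by_cases hh : b' ω = b' ω'
            · rw [if_pos hh, if_pos ((hb ω ω').1 hh).1.symm]
              apply le_of_eq
              ring
            · rw [if_neg hh, zero_mul]
              refine mul_nonneg (div_nonneg e.le hL.le) ?_
              split_ifs
              · exact hterm ω ω' e
              · exact le_rfl
        _ = p ω / law p b' (b' ω) * ∑ ω', (if bv Z v ω' = bv Z v ω then
              p ω' * ell (2 ^ J) (τ ω) (τ ω') else 0) := by rw [Finset.mul_sum]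
        _ ≤ p ω / law p b' (b' ω) * (G₀ * law p (bv Z v) (bv Z v ω)) := by
            refine mul_le_mul_of_nonneg_left ?_ (div_nonneg e.le hL.le)
            have := hG ω e
            convert this
        _ = _ := by
            rw [hcl ω]
            ring
  have hGf : Gf (2 ^ J) p b' τ = ∑ ω, ∑ ω', dbl p b' (ω, ω') * ell (2 ^ J) (τ ω) (τ ω') := by
    unfold Gf Ex
    rw [Fintype.sum_prod_type]
  rw [hGf]
  calc ∑ ω, ∑ ω', dbl p b' (ω, ω') * ell (2 ^ J) (τ ω) (τ ω')
      ≤ ∑ ω, G₀ * (p ω * (law p (bv Z v) (bv Z v ω) /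
        law p (fun ω => (bv Z v ω, w ω)) (bv Z v ω, w ω))) :=
        Finset.sum_le_sum (fun ω _ => key ω)
    _ = G₀ * ∑ ω, p ω * (law p (bv Z v) (bv Z v ω) /
        law p (fun ω => (bv Z v ω, w ω)) (bv Z v ω, w ω)) := by rw [Finset.mul_sum]
    _ ≤ G₀ * (N + 1) := mul_le_mul_of_nonneg_left (nrg_sum p (bv Z v) w N hp h1 hw) hG0
    _ = (N + 1) * G₀ := by ring

end Pool.LQ
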