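import Pool.Agent.H60.LQ.Cfg
import Pool.Agent.H48.KTH.Tools

/-!
# LQ, row ALS2: points of the family of the lines 1 given `O`, explicit coefficients
-/

set_option autoImplicit false

namespace Pool.LQ

open Finset Real
open Pool.Agent.H49.Ent Pool.Agent.H32.Dense Pool.KTH
open Pool.Agent.H24.KTH (dsv lvv lev cap Yf kp)
open Pool.KTH.T48

namespace ALS2aux

variable {d J : ℕ}

/-- `C log (J + 2)` is small. -/
lemma lg_small (C : ℝ) (hC : 0 ≤ C) (ε : ℝ) (hε : 0 < ε) :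
    ∃ C' : ℝ, 0 ≤ C' ∧ ∀ J : ℕ, C * Real.log ((J : ℝ) + 2) ≤ C' + ε * lm J := by
  have hl2 : 0 < Real.log 2 := Real.log_pos (by norm_num)
  set δ : ℝ := ε * Real.log 2 / (C + 1) with hδ
  have hδ0 : 0 < δ := by positivity
  refine ⟨|C * (2 * δ - 1 - Real.log δ)|, abs_nonneg _, fun J => ?_⟩
  have hJ : (0 : ℝ) < (J : ℝ) + 2 := by positivity
  have h1 := Real.log_le_sub_one_of_pos (mul_pos hδ0 hJ)
  rw [Real.log_mul hδ0.ne' hJ.ne'] at h1
  have h2 : C * Real.log ((J : ℝ) + 2) ≤ C * (δ * ((J : ℝ) + 2) - 1 - Real.log δ) :=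
    mul_le_mul_of_nonneg_left (by linarith) hC
  have h3 : C * δ ≤ ε * Real.log 2 := by
    have : C * δ = (C / (C + 1)) * (ε * Real.log 2) := by rw [hδ]; field_simp
    rw [this]
    have h4 : C / (C + 1) ≤ 1 := by
      rw [div_le_one (by positivity)]
      linarith
    calc C / (C + 1) * (ε * Real.log 2) ≤ 1 * (ε * Real.log 2) :=
          mul_le_mul_of_nonneg_right h4 (by positivity)
      _ = ε * Real.log 2 := one_mul _
  have h5 : C * δ * (J : ℝ) ≤ ε * Real.log 2 * J :=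
    mul_le_mul_of_nonneg_right h3 (Nat.cast_nonneg J)
  have h6 := le_abs_self (C * (2 * δ - 1 - Real.log δ))
  unfold lm
  nlinarith

lemma gp_nonneg (J : ℕ) (x y : ℤ) : 0 ≤ gp J x y := by
  unfold gp
  apply Real.log_nonneg
  have : (0 : ℝ) ≤ 2 ^ J / max 1 |(x : ℝ) - y| := by positivity
  linarith

lemma eg_nonneg (F : Cf d J) (x y : F.Ω → ℤ) : 0 ≤ F.eg x y := by
  unfold Cf.eg Ex
  exact Finset.sum_nonneg (fun w _ => mul_nonneg (F.hq w) (gp_nonneg J _ _))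

lemma en_nonneg (F : Cf d J) : 0 ≤ en F := by
  unfold en
  have := fun x y => eg_nonneg F x y
  linarith [this F.t F.s, this F.t₁ F.t, this F.t₁ F.s, this F.r F.t, this F.r F.s,
    this F.r F.t₁, this F.tr F.s, this F.ta F.s, this F.ta F.tr, this F.ta F.TO]

lemma eg_t₁t_le (F : Cf d J) : F.eg F.t₁ F.t ≤ en F := by
  unfold en
  have := fun x y => eg_nonneg F x y
  linarith [this F.t F.s, this F.t₁ F.t, this F.t₁ F.s, this F.r F.t, this F.r F.s,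
    this F.r F.t₁, this F.tr F.s, this F.ta F.s, this F.ta F.tr, this F.ta F.TO]

lemma eg_st_le (F : Cf d J) : F.eg F.t F.s ≤ en F := by
  unfold en
  have := fun x y => eg_nonneg F x y
  linarith [this F.t F.s, this F.t₁ F.t, this F.t₁ F.s, this F.r F.t, this F.r F.s,
    this F.r F.t₁, this F.tr F.s, this F.ta F.s, this F.ta F.tr, this F.ta F.TO]

/-- FACT K for the lines 1 (given) and 0: `r` is a time of the line 0. -/
lemma fck_use (hK : FCK2Stmt) (hd : 1 ≤ d) (ε : ℝ) (hε : 0 < ε) :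
    ∃ C : ℝ, 0 ≤ C ∧ ∀ (J : ℕ) (F : Cf d J) (r : F.Ω → ℤ) (e : ℝ),
      (∀ w, 0 < F.q w → 0 ≤ r w ∧ r w < ((2 ^ J : ℕ) : ℤ)) →
      lm J - e ≤ CH F.q r (fun w => (F.v01 w, F.Z w)) →
      CH F.q F.v₀ (fun w => (F.v₁ w, pp J F.u₀ F.v₀ r w, F.Z w)) ≤
        e + C * (1 + F.eg r F.t) + ε * lm J := by
  obtain ⟨C, hC, h⟩ := hK d hd ε hε
  refine ⟨C, hC, fun J F r e hr hc => ?_⟩
  refine h J F.Ω F.ζ F.q F.Z F.v₁ F.v₀ F.u₁ F.u₀ F.t r e F.hq F.h1 ?_ ?_ F.hu₁ F.hu₀ ?_ ?_ ?_ ?_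
  · intro w hw k
    have := F.hv₁ w hw k
    push_cast at this
    exact this
  · intro w hw k
    have := F.hv₀ w hw k
    push_cast at this
    exact this
  · intro w hw
    have := F.ht w hw
    push_cast at this
    exact this
  · intro w hw
    have := hr w hw
    push_cast at this
    exact this
  · intro w hw
    exact (F.cross01 w hw).symm
  · refine hc.trans (le_of_eq ?_)
    refine CH_congr F.hq ?_ ?_ ?_ ?_ <;>
    · intro w w' _ _ hh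
      simp only [Prod.mk.injEq, Cf.v01] at hh ⊢
      tauto

end ALS2aux

open ALS2aux in
/-- (ALS2). -/
theorem als2 (hCHD : CHD2Stmt) (hUPT : UPT2Stmt) (hT1R : T1R2Stmt) (hFCK : FCK2Stmt) :
    ALS2Stmt := by
  intro d hd ε hε
  obtain ⟨C₂, hC₂, hD⟩ := (hCHD d).1
  obtain ⟨C₃, hC₃, hTO⟩ := (hUPT d).2.2.1
  obtain ⟨C₄, hC₄, hT⟩ := hT1R d
  obtain ⟨C₅, hC₅, hK⟩ := fck_use hFCK hd (ε / 2) (by positivity)
  obtain ⟨C₆, hC₆, hlg⟩ := lg_small (C₂ + C₃ + C₄) (by positivity) (ε / 2) (by positivity)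
  refine ⟨C₂ + C₃ + C₄ + C₅ + C₆, by positivity, ?_⟩
  intro J F L sb K G hOk
  have hlm : 0 ≤ lm J := by unfold lm; positivity
  have hq := F.hq
  have hlogJ := hlg J
  have hen0 := en_nonneg F
  have henG := hOk.ge
  have hG0 := hOk.G0
  have hlogn : 0 ≤ Real.log ((J : ℝ) + 2) := Real.log_nonneg (by
    have : (0 : ℝ) ≤ J := Nat.cast_nonneg J
    linarith)
  have hD' : CH F.q F.O (fun w => ((F.A w, F.B w), F.TO w, F.Z w)) ≤
      C₂ * (en F + 1 + Real.log (J + 2)) := hD J F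
  have hTO' : CH F.q F.TO F.Z - lm J ≤ C₃ * (en F + 1 + Real.log (J + 2)) := hTO J F
  have hT' : 3 * lm J - CH F.q (fun w => ((F.t₁ w, F.r w), F.O w)) (fun w => (F.v01 w, F.Z w)) ≤
      3 * K + C₄ * (G + 1 + Real.log (J + 2)) := hT J F L sb K G hOk
  -- FACT K
  have hct : lm J - K ≤ CH F.q F.t₁ (fun w => (F.v01 w, F.Z w)) := by
    refine hOk.ct₁.trans (CH_mono_cond hq ?_)
    intro w w' _ _ hh
    simp only [Prod.mk.injEq, Cf.v01, Cf.v3] at hh ⊢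
    tauto
  have hK' := hK J F F.t₁ K F.ht₁ hct
  have heg := eg_t₁t_le F
  -- `FL.sb = H(B | O)`
  have s1 : F.FL.sb = CH F.q F.B (fun w => (F.O w, F.Z w)) := rfl
  -- `H(B, O) = H(A, B, O) - H(A | B O)`
  have s6 : CH F.q (fun w => (F.B w, F.O w)) F.Z = CH F.q F.O F.Z +
      CH F.q F.B (fun w => (F.O w, F.Z w)) := CH_chain hq _ _ _
  have s7 : CH F.q (fun w => (F.A w, (F.B w, F.O w))) F.Z = CH F.q (fun w => (F.B w, F.O w)) F.Z +
      CH F.q F.A (fun w => ((F.B w, F.O w), F.Z w)) := CH_chain hq _ _ _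
  have s8 : CH F.q (fun w => (F.A w, (F.B w, F.O w))) F.Z ≤
      CH F.q (fun w => (F.O w, F.TO w, (F.A w, F.B w))) F.Z := by
    refine CH_mono_left hq ?_
    intro w w' _ _ hh
    simp only [Prod.mk.injEq] at hh ⊢
    tauto
  have s9 : CH F.q (fun w => (F.O w, F.TO w, (F.A w, F.B w))) F.Z =
      CH F.q (fun w => (F.TO w, (F.A w, F.B w))) F.Z +
        CH F.q F.O (fun w => ((F.TO w, (F.A w, F.B w)), F.Z w)) := CH_chain hq _ _ _
  have s10 : CH F.q F.O (fun w => ((F.TO w, (F.A w, F.B w)), F.Z w)) =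
      CH F.q F.O (fun w => ((F.A w, F.B w), F.TO w, F.Z w)) := by
    refine CH_congr hq (fun _ _ _ _ h => (Prod.ext_iff.mp h).1)
      (fun _ _ _ _ h => (Prod.ext_iff.mp h).1) ?_ ?_ <;>
    · intro w w' _ _ hh
      simp only [Prod.mk.injEq] at hh ⊢
      tauto
  have s11 := CH_subadd hq F.TO (fun w => (F.A w, F.B w)) F.Z
  -- `H(A | B O) ≥ H(A | v₁ r O)`
  have a1 : CH F.q F.A (fun w => ((F.v₁ w, F.r w, F.O w), F.Z w)) ≤
      CH F.q F.A (fun w => ((F.B w, F.O w), F.Z w)) := by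
    refine CH_mono_cond hq ?_
    intro w w' hw hw' hh
    simp only [Prod.mk.injEq] at hh
    obtain ⟨⟨e1, e2, e3⟩, e4⟩ := hh
    have e5 : F.u₁ w = F.u₁ w' := F.hu₁ w w' hw hw' (Prod.ext e1 e4)
    simp only [Prod.mk.injEq]
    refine ⟨⟨?_, e3⟩, e4⟩
    unfold Cf.B pp
    rw [e1, e2, e5]
  -- `H(v₀, A | W) = H(A | W) + H(v₀ | A, W)`
  have a2 : CH F.q (fun w => (F.v₀ w, F.A w)) (fun w => ((F.v₁ w, F.r w, F.O w), F.Z w)) =
      CH F.q F.A (fun w => ((F.v₁ w, F.r w, F.O w), F.Z w)) +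
        CH F.q F.v₀ (fun w => (F.A w, ((F.v₁ w, F.r w, F.O w), F.Z w))) := CH_chain hq _ _ _
  have a3 : CH F.q F.v₀ (fun w => (F.A w, ((F.v₁ w, F.r w, F.O w), F.Z w))) ≤
      K + C₅ * (1 + F.eg F.t₁ F.t) + ε / 2 * lm J := by
    refine le_trans (CH_mono_cond hq ?_) hK'
    intro w w' _ _ hh
    simp only [Prod.mk.injEq, Cf.A] at hh ⊢
    tauto
  have a4 : CH F.q (fun w => (F.t₁ w, F.v₀ w)) (fun w => ((F.v₁ w, F.r w, F.O w), F.Z w)) ≤
      CH F.q (fun w => (F.v₀ w, F.A w)) (fun w => ((F.v₁ w, F.r w, F.O w), F.Z w)) := by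
    refine CH_mono_left hq ?_
    intro w w' _ _ hh
    simp only [Prod.mk.injEq] at hh
    obtain ⟨⟨e1, e2⟩, -⟩ := hh
    have e5 : F.t₁ w = F.t₁ w' := congrArg Prod.fst e2
    simp only [Prod.mk.injEq]
    exact ⟨e5, e1⟩
  -- `H(t₁, v₀ | v₁ r O) = H(r, (t₁, v₀) | v₁ O) - H(r | v₁ O)`
  have c1 : CH F.q (fun w => ((F.t₁ w, F.v₀ w), F.r w)) (fun w => (F.v₁ w, F.O w, F.Z w)) =
      CH F.q F.r (fun w => (F.v₁ w, F.O w, F.Z w)) +
        CH F.q (fun w => (F.t₁ w, F.v₀ w)) (fun w => (F.r w, (F.v₁ w, F.O w, F.Z w))) :=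
    CH_chain hq _ _ _
  have c2 : CH F.q (fun w => ((F.t₁ w, F.r w), F.v₀ w)) (fun w => (F.v₁ w, F.O w, F.Z w)) =
      CH F.q F.v₀ (fun w => (F.v₁ w, F.O w, F.Z w)) +
        CH F.q (fun w => (F.t₁ w, F.r w)) (fun w => (F.v₀ w, (F.v₁ w, F.O w, F.Z w))) :=
    CH_chain hq _ _ _
  have c3 : CH F.q (fun w => ((F.t₁ w, F.v₀ w), F.r w)) (fun w => (F.v₁ w, F.O w, F.Z w)) =
      CH F.q (fun w => ((F.t₁ w, F.r w), F.v₀ w)) (fun w => (F.v₁ w, F.O w, F.Z w)) := by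
    refine CH_congr hq ?_ ?_ (fun _ _ _ _ h => h) (fun _ _ _ _ h => h) <;>
    · intro w w' _ _ hh
      simp only [Prod.mk.injEq] at hh ⊢
      tauto
  have c4 : CH F.q (fun w => (F.t₁ w, F.v₀ w)) (fun w => (F.r w, (F.v₁ w, F.O w, F.Z w))) =
      CH F.q (fun w => (F.t₁ w, F.v₀ w)) (fun w => ((F.v₁ w, F.r w, F.O w), F.Z w)) := by
    refine CH_congr hq (fun _ _ _ _ h => (Prod.ext_iff.mp h).1)
      (fun _ _ _ _ h => (Prod.ext_iff.mp h).1) ?_ ?_ <;>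
    · intro w w' _ _ hh
      simp only [Prod.mk.injEq] at hh ⊢
      tauto
  have c5 : CH F.q F.r (fun w => (F.v₁ w, F.O w, F.Z w)) = lm J - KL F := by
    unfold KL
    ring
  -- `H(t₁, r | v₀ v₁ O) = H(t₁, r, O | v₀ v₁) - H(O | v₀ v₁)`
  have d1 : CH F.q (fun w => ((F.t₁ w, F.r w), F.O w)) (fun w => (F.v01 w, F.Z w)) =
      CH F.q F.O (fun w => (F.v01 w, F.Z w)) +
        CH F.q (fun w => (F.t₁ w, F.r w)) (fun w => (F.O w, (F.v01 w, F.Z w))) :=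
    CH_chain hq _ _ _
  have d2 : CH F.q (fun w => (F.t₁ w, F.r w)) (fun w => (F.O w, (F.v01 w, F.Z w))) =
      CH F.q (fun w => (F.t₁ w, F.r w)) (fun w => (F.v₀ w, (F.v₁ w, F.O w, F.Z w))) := by
    refine CH_congr hq (fun _ _ _ _ h => (Prod.ext_iff.mp h).1)
      (fun _ _ _ _ h => (Prod.ext_iff.mp h).1) ?_ ?_ <;>
    · intro w w' _ _ hh
      simp only [Prod.mk.injEq, Cf.v01] at hh ⊢
      tauto
  have d3 : CH F.q F.O (fun w => (F.v01 w, F.Z w)) = 2 * lm J - F.y01 - gO F := by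
    unfold gO
    ring
  have x1 : C₂ * (en F + 1 + Real.log (J + 2)) ≤ C₂ * (G + 1 + Real.log (J + 2)) :=
    mul_le_mul_of_nonneg_left (by linarith) hC₂
  have x2 : C₃ * (en F + 1 + Real.log (J + 2)) ≤ C₃ * (G + 1 + Real.log (J + 2)) :=
    mul_le_mul_of_nonneg_left (by linarith) hC₃
  have x3 : C₅ * (1 + F.eg F.t₁ F.t) ≤ C₅ * (G + 1) :=
    mul_le_mul_of_nonneg_left (by linarith) hC₅
  have x4 : (0 : ℝ) ≤ C₆ * G := mul_nonneg hC₆ hG0
  change F.FL.sb - lm J - (F.mh - F.xh - F.et₁ - F.y01 - gO F - KL F) ≤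
    4 * K + (C₂ + C₃ + C₄ + C₅ + C₆) * (G + 1) + ε * lm J
  have x5 : (C₂ + C₃ + C₄ + C₅ + C₆) * (G + 1) = C₂ * (G + 1) + C₃ * (G + 1) + C₄ * (G + 1) +
      C₅ * (G + 1) + C₆ * G + C₆ := by ring
  have x6 : (C₂ + C₃ + C₄) * Real.log ((J : ℝ) + 2) = C₂ * Real.log ((J : ℝ) + 2) +
      C₃ * Real.log ((J : ℝ) + 2) + C₄ * Real.log ((J : ℝ) + 2) := by ring
  have x7 : C₂ * (G + 1 + Real.log ((J : ℝ) + 2)) = C₂ * (G + 1) + C₂ * Real.log ((J : ℝ) + 2) := by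
    ring
  have x8 : C₃ * (G + 1 + Real.log ((J : ℝ) + 2)) = C₃ * (G + 1) + C₃ * Real.log ((J : ℝ) + 2) := by
    ring
  have x9 : C₄ * (G + 1 + Real.log ((J : ℝ) + 2)) = C₄ * (G + 1) + C₄ * Real.log ((J : ℝ) + 2) := by
    ring
  rw [s1]
  unfold Cf.mh Cf.xh Cf.et₁
  linarith

end Pool.LQ
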